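import Pool.Agent.N931.PN.Stm5
import Pool.Agent.N531.PN.VWa

/-!
Project PN, subtask PN/VW2 (helper249): the open crossing behind a long excursion of vertices near
the wired arc is not connected to the boundary.
-/

set_option autoImplicit false

namespace Pool.Agent.N249.PN.VW2

open H974 H12S H389NS H984N H984P H342P Finset
open Pool.Agent.N116.EW Pool.Agent.N531.PN.VW Pool.Agent.N931.PN

theorem main : S_VW2 := by
  intro D hD G B hG z d R ρ _ _ hdR hρ hB hout hbad
  obtain ⟨e, heG, heF, x, v, y, hEn, -, hx, hv, -, w, hw, hr⟩ := hbad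
  set C : Set Vtx := D.clu (G \ B) with hC
  have heB : e ∈ B := by
    by_contra hcon
    apply heF
    left
    rw [Finset.mem_coe, Finset.mem_sdiff]
    exact ⟨heG, hcon⟩
  have hed : e ∈ blk z d := hB heB
  have hvz : sd v z ≤ d := by
    rcases hEn with ⟨_, h⟩ | ⟨_, h⟩
    · rw [h]; exact blk_tgt hed
    · rw [h]; exact blk_src hed
  -- the excursion
  set P : Set Edg := {g | g ∈ G ∧ src g ∉ C ∧ tgt g ∉ C} with hP
  have hrP : Reach P v w := by
    refine hr.mono ?_
    rintro g ⟨h1, h2, h3⟩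
    refine ⟨?_, h2, h3⟩
    rcases h1 with h1 | h1
    · exact h1
    · exact absurd (wir_clu hD _ h1).1 h2
  have hwz : (R : ℤ) + 4 ≤ sd w z := by
    rw [le_sd] at hw ⊢
    rw [sd_le] at hvz
    have h1 : ((R + d + 4 : ℕ) : ℤ) ≤ ρ := by exact_mod_cast hρ
    push_cast at h1
    omega
  have hdR' : (d : ℤ) + 4 ≤ R := by exact_mod_cast hdR
  obtain ⟨u, w', hu, hw', hpath⟩ : ∃ u w', sd u z ≤ d ∧ (R : ℤ) ≤ sd w' z ∧
      Reach (P ∩ ↑(blk z R \ blk z d)) u w' := by
    rcases cutP (R := R) hrP hvz with ⟨u, h1, h2⟩ | h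
    · exact ⟨u, w, h1, by omega, h2⟩
    · exact h
  -- one step of a path in the annulus
  have hstep : ∀ a b, a ∉ C → Adj (oE z d R G) a b →
      b ∉ C ∧ inR D.l D.r 0 D.h b ∧ sd b z ≤ R := by
    rintro a b ha ⟨g, ⟨hgG, hgA⟩, hor⟩
    have hgA' : g ∈ blk z R ∧ g ∉ blk z d := by
      unfold AN at hgA
      rwa [Finset.mem_coe, Finset.mem_sdiff] at hgA
    have hgc : g ∈ D.cfg (G \ B) := by
      left
      rw [Finset.mem_coe, Finset.mem_sdiff]
      exact ⟨hgG, fun h => hgA'.2 (hB h)⟩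
    refine ⟨fun hb => ha ?_, ?_, ?_⟩
    · have hb' : Reach (D.cfg (G \ B)) (0, 0) b := hb
      exact hb'.trans (Adj.reach ⟨g, hgc, hor.symm⟩)
    · have h6 := clu_cfg_in hD (F := G) hG (e := g) (Or.inl hgG)
      rcases hor with ⟨_, h2⟩ | ⟨h2, _⟩
      · rw [← h2]; exact h6.2
      · rw [← h2]; exact h6.1
    · rcases hor with ⟨_, h2⟩ | ⟨h2, _⟩
      · rw [← h2]; exact blk_tgt hgA'.1
      · rw [← h2]; exact blk_src hgA'.1
  have hu0 : u ∉ C ∧ inR D.l D.r 0 D.h u := by
    rcases Relation.ReflTransGen.cases_head hpath with h | ⟨c, h, -⟩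
    · rw [h] at hu
      omega
    · obtain ⟨g, ⟨hg, -⟩, hor⟩ := h
      have h6 := clu_cfg_in hD (F := G) hG (e := g) (Or.inl hg.1)
      rcases hor with ⟨h2, _⟩ | ⟨_, h2⟩
      · rw [← h2]; exact ⟨hg.2.1, h6.1⟩
      · rw [← h2]; exact ⟨hg.2.2, h6.2⟩
  refine ⟨u, w', hu, hw', ?_, ?_⟩
  · refine hpath.mono ?_
    rintro g ⟨h1, h2⟩
    exact ⟨h1.1, h2⟩
  · intro v' hv' hreach
    have hinv : v' ∉ C ∧ inR D.l D.r 0 D.h v' ∧ sd v' z ≤ R := by
      unfold Reach at hreach
      induction hreach with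
      | refl => exact ⟨hu0.1, hu0.2, by omega⟩
      | @tail a b hab hst ih =>
        by_cases hba : D.bd a ≤ 0
        · exact hstep a b (ih hba).1 hst
        · clear hv'
          -- the vertex `a` is off the cluster as well
          have : a ∉ C := by
            have key : ∀ c, Relation.ReflTransGen (Adj (oE z d R G)) u c → c ∉ C := by
              intro c hc
              induction hc with
              | refl => exact hu0.1
              | tail _ h ih2 => exact (hstep _ _ ih2 h).1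
            exact key a hab
          exact hstep a b this hst
    refine hinv.1 (bd_clu hD (G \ B) hout hinv.2.1 hinv.2.2 ?_)
    have h1 := hinv.2.1
    unfold inR at h1
    unfold H984N.Dm.bd at hv'
    simp only [min_le_iff] at hv'
    omega

end Pool.Agent.N249.PN.VW2
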